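import Mathlib

namespace H34.WSG

open Finset

/-- the largest number of divisors of a positive integer `≤ x`. -/
def T (x : ℕ) : ℕ := (Finset.Icc 1 x).sup (fun m => m.divisors.card)

lemma le_T {x m : ℕ} (hm : 1 ≤ m) (hmx : m ≤ x) : m.divisors.card ≤ T x :=
  Finset.le_sup (f := fun m => m.divisors.card) (Finset.mem_Icc.2 ⟨hm, hmx⟩)

/-- a smallest maximiser. -/
lemma exists_min {x : ℕ} (hx : 1 ≤ x) : ∃ n, 1 ≤ n ∧ n ≤ x ∧ n.divisors.card = T x ∧
    ∀ m, 1 ≤ m → m < n → m.divisors.card < n.divisors.card := by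
  obtain ⟨n0, h1, h2⟩ := Finset.exists_mem_eq_sup (Finset.Icc 1 x) ⟨1, Finset.mem_Icc.2 ⟨le_rfl, hx⟩⟩
    (fun m => m.divisors.card)
  have hex : ∃ n, 1 ≤ n ∧ n.divisors.card = T x := ⟨n0, (Finset.mem_Icc.1 h1).1, h2.symm⟩
  obtain ⟨s1, s2⟩ := Nat.find_spec hex
  have hle : Nat.find hex ≤ n0 := Nat.find_min' hex ⟨(Finset.mem_Icc.1 h1).1, h2.symm⟩
  have hx' : Nat.find hex ≤ x := hle.trans (Finset.mem_Icc.1 h1).2
  refine ⟨Nat.find hex, s1, hx', s2, ?_⟩
  intro m hm hmn
  have h3 := Nat.find_min hex hmn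
  have h4 : m.divisors.card ≤ T x := le_T hm (by omega)
  have h5 : m.divisors.card ≠ T x := fun h => h3 ⟨hm, h⟩
  rw [s2]
  omega

/-- all exact prime powers of a smallest maximiser are at most the square of a missing prime. -/
lemma pow_le {n q : ℕ} (hn : 1 ≤ n)
    (hmin : ∀ m, 1 ≤ m → m < n → m.divisors.card < n.divisors.card)
    (hq : q.Prime) (hqn : ¬ q ∣ n) : ∀ p ∈ n.primeFactors, p ^ n.factorization p ≤ q ^ 2 := by
  intro p hp
  have hpp := Nat.prime_of_mem_primeFactors hp
  have hn0 : n ≠ 0 := by omega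
  have hpd : p ∣ n := Nat.dvd_of_mem_primeFactors hp
  set a := n.factorization p with ha
  have ha1 : 1 ≤ a := hpp.factorization_pos_of_dvd hn0 hpd
  obtain ⟨m, hm⟩ := Nat.ordProj_dvd n p
  rw [← ha] at hm
  have hm0 : m ≠ 0 := by rintro rfl; simp at hm; omega
  have hpm : ¬ p ∣ m := by
    intro h
    have h1 : p ^ (a + 1) ∣ n := by
      rw [hm, pow_succ]
      exact Nat.mul_dvd_mul_left _ h
    have := (hpp.pow_dvd_iff_le_factorization hn0).1 h1
    omega
  have hqm : ¬ q ∣ m := fun h => hqn (hm ▸ Dvd.dvd.mul_left h _)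
  have hpq : p ≠ q := fun h => hqn (h ▸ hpd)
  set h := (a + 1) / 2 with hh
  have hh1 : 1 ≤ h := by omega
  have hha : h ≤ a := by omega
  have hbound : p ^ h ≤ q := by
    by_contra hcon
    push Not at hcon
    -- n' = p^(a-h) * q * m
    have hlt : p ^ (a - h) * (q * m) < n := by
      have e1 : n = p ^ (a - h) * (p ^ h * m) := by
        rw [← mul_assoc, ← pow_add, show a - h + h = a by omega]; exact hm
      rw [e1]
      apply Nat.mul_lt_mul_of_pos_left _ (pow_pos hpp.pos _)
      exact Nat.mul_lt_mul_of_pos_right hcon (Nat.pos_of_ne_zero hm0)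
    have hpos : 1 ≤ p ^ (a - h) * (q * m) :=
      Nat.mul_pos (pow_pos hpp.pos _) (Nat.mul_pos hq.pos (Nat.pos_of_ne_zero hm0))
    have h1 := hmin _ hpos hlt
    have c1 : (p ^ (a - h) * (q * m)).divisors.card = (a - h + 1) * (2 * m.divisors.card) := by
      have k1 : Nat.Coprime (p ^ (a - h)) (q * m) := by
        apply Nat.Coprime.pow_left
        rw [Nat.Prime.coprime_iff_not_dvd hpp]
        intro hd
        rcases (Nat.Prime.dvd_mul hpp).1 hd with h | h
        · exact hpq ((Nat.prime_dvd_prime_iff_eq hpp hq).1 h)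
        · exact hpm h
      have k2 : Nat.Coprime q m := (Nat.Prime.coprime_iff_not_dvd hq).2 hqm
      rw [Nat.Coprime.card_divisors_mul k1, Nat.Coprime.card_divisors_mul k2,
        Nat.divisors_prime_pow hpp, Finset.card_map, Finset.card_range, hq.divisors,
        Finset.card_pair hq.one_lt.ne]
    have c2 : n.divisors.card = (a + 1) * m.divisors.card := by
      have k1 : Nat.Coprime (p ^ a) m :=
        Nat.Coprime.pow_left _ ((Nat.Prime.coprime_iff_not_dvd hpp).2 hpm)
      conv_lhs => rw [hm]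
      rw [Nat.Coprime.card_divisors_mul k1, Nat.divisors_prime_pow hpp, Finset.card_map,
        Finset.card_range]
    rw [c1, c2] at h1
    have h2 : (a + 1) * m.divisors.card ≤ (a - h + 1) * (2 * m.divisors.card) := by
      have : a + 1 ≤ (a - h + 1) * 2 := by omega
      calc (a + 1) * m.divisors.card ≤ ((a - h + 1) * 2) * m.divisors.card :=
            Nat.mul_le_mul_right _ this
        _ = _ := by ring
    omega
  calc p ^ a ≤ p ^ (h * 2) := Nat.pow_le_pow_right hpp.pos (by omega)
    _ = (p ^ h) ^ 2 := pow_mul _ _ _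
    _ ≤ q ^ 2 := Nat.pow_le_pow_left hbound 2

/-- the maximal number of divisors does not grow faster than linearly. -/
lemma shrink : ∀ n z : ℕ, 1 ≤ z → z < n → ∃ n', 1 ≤ n' ∧ n' ≤ z ∧
    n.divisors.card * z ≤ 2 * n * n'.divisors.card := by
  intro n
  induction n using Nat.strong_induction_on with
  | _ n ih =>
    intro z hz hzn
    obtain ⟨p, hp, m, hm⟩ := Nat.exists_prime_and_dvd (show n ≠ 1 by omega)
    have hm0 : 1 ≤ m := by
      rcases Nat.eq_zero_or_pos m with h | h
      · rw [h] at hm; simp at hm; omega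
      · exact h
    have hτ : n.divisors.card ≤ 2 * m.divisors.card := by
      rw [hm, Nat.divisors_mul]
      refine (Finset.card_mul_le).trans ?_
      rw [hp.divisors, Finset.card_pair hp.one_lt.ne]
    have h2m : 2 * m ≤ n := by rw [hm]; exact Nat.mul_le_mul_right _ hp.two_le
    by_cases hmz : m ≤ z
    · refine ⟨m, hm0, hmz, ?_⟩
      calc n.divisors.card * z ≤ (2 * m.divisors.card) * n := Nat.mul_le_mul hτ hzn.le
        _ = _ := by ring
    · push Not at hmz
      obtain ⟨n', a1, a2, a3⟩ := ih m (by omega) z hz hmz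
      refine ⟨n', a1, a2, ?_⟩
      calc n.divisors.card * z ≤ (2 * m.divisors.card) * z := Nat.mul_le_mul_right _ hτ
        _ = 2 * (m.divisors.card * z) := by ring
        _ ≤ 2 * (2 * m * n'.divisors.card) := Nat.mul_le_mul_left _ a3
        _ = 2 * (2 * m) * n'.divisors.card := by ring
        _ ≤ 2 * n * n'.divisors.card := by
          apply Nat.mul_le_mul_right
          omega

lemma T_shrink {x z : ℕ} (hz : 1 ≤ z) (hzx : z ≤ x) : T x * z ≤ 2 * x * T z := by
  obtain ⟨n, h1, h2, h3, -⟩ := exists_min (show 1 ≤ x by omega)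
  rcases le_or_gt n z with h | h
  · have := le_T h1 h
    rw [← h3]
    calc n.divisors.card * z ≤ T z * x := Nat.mul_le_mul this hzx
      _ ≤ 2 * (T z * x) := by omega
      _ = _ := by ring
  · obtain ⟨n', a1, a2, a3⟩ := shrink n z hz h
    rw [← h3]
    calc n.divisors.card * z ≤ 2 * n * n'.divisors.card := a3
      _ ≤ 2 * x * T z := Nat.mul_le_mul (by omega) (le_T a1 a2)

/-- a missing prime. -/
lemma exists_missing {n B : ℕ} (hn : 1 ≤ n) (hB : Nat.log 2 n < Nat.primeCounting B) :
    ∃ q, q.Prime ∧ q ≤ B ∧ ¬ q ∣ n := by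
  by_contra hcon
  push Not at hcon
  have h1 : Nat.primesLE B ⊆ n.primeFactors := by
    intro q hq
    rw [Nat.primesLE_eq_filter_range] at hq
    obtain ⟨q1, q2⟩ := Finset.mem_filter.1 hq
    exact Nat.mem_primeFactors.2 ⟨q2, hcon q q2 (by have := Finset.mem_range.1 q1; omega), by omega⟩
  have hc : (Nat.primesLE B).card = Nat.primeCounting B := by
    rw [Nat.primesLE_eq_filter_range, Nat.primeCounting, Nat.primeCounting',
      Nat.count_eq_card_filter_range]
  have h2 := Finset.card_le_card h1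
  have h3 : 2 ^ n.primeFactors.card ≤ n := by
    calc 2 ^ n.primeFactors.card = ∏ _p ∈ n.primeFactors, 2 := by rw [Finset.prod_const]
      _ ≤ ∏ p ∈ n.primeFactors, p :=
        Finset.prod_le_prod' fun p hp => (Nat.prime_of_mem_primeFactors hp).two_le
      _ ≤ n := Nat.le_of_dvd hn (Nat.prod_primeFactors_dvd n)
  have h4 := Nat.le_log_of_pow_le (by norm_num) h3
  omega

lemma card_primeFactors_le {n : ℕ} (hn : 1 ≤ n) : n.primeFactors.card ≤ Nat.log 2 n := by
  have h3 : 2 ^ n.primeFactors.card ≤ n := by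
    calc 2 ^ n.primeFactors.card = ∏ _p ∈ n.primeFactors, 2 := by rw [Finset.prod_const]
      _ ≤ ∏ p ∈ n.primeFactors, p :=
        Finset.prod_le_prod' fun p hp => (Nat.prime_of_mem_primeFactors hp).two_le
      _ ≤ n := Nat.le_of_dvd hn (Nat.prod_primeFactors_dvd n)
  exact Nat.le_log_of_pow_le (by norm_num) h3

end H34.WSG
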