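import Mathlib

namespace H34.WSG

open Finset

/-- flip the exponents of the primes in `S`. -/
noncomputable def flip (n : ℕ) (S : Finset ℕ) (e : ℕ) : ℕ :=
  ∏ p ∈ n.primeFactors, p ^ (if p ∈ S then n.factorization p - e.factorization p
    else e.factorization p)

lemma flip_pos (n : ℕ) (S : Finset ℕ) (e : ℕ) : 0 < flip n S e :=
  Finset.prod_pos fun _ hp => pow_pos (Nat.prime_of_mem_primeFactors hp).pos _

lemma flip_fact (n : ℕ) (S : Finset ℕ) (e q : ℕ) (hq : q ∈ n.primeFactors) :
    (flip n S e).factorization q =
      if q ∈ S then n.factorization q - e.factorization q else e.factorization q := by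
  unfold flip
  rw [Nat.factorization_prod fun p hp => (pow_pos (Nat.prime_of_mem_primeFactors hp).pos _).ne']
  rw [Finset.sum_apply']
  rw [Finset.sum_eq_single q]
  · rw [(Nat.prime_of_mem_primeFactors hq).factorization_pow]
    simp
  · intro p hp hpq
    rw [(Nat.prime_of_mem_primeFactors hp).factorization_pow]
    simp [hpq]
  · intro h; exact absurd hq h

lemma flip_dvd {n : ℕ} (hn : n ≠ 0) (S : Finset ℕ) {e : ℕ} (he : e ∣ n) : flip n S e ∣ n := by
  have h1 : n = ∏ p ∈ n.primeFactors, p ^ n.factorization p :=
    (Nat.prod_factorization_pow_eq_self hn).symm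
  conv_rhs => rw [h1]
  unfold flip
  apply Finset.prod_dvd_prod_of_dvd
  intro p _
  apply pow_dvd_pow
  split_ifs
  · exact Nat.sub_le _ _
  · exact (Nat.factorization_le_iff_dvd (ne_zero_of_dvd_ne_zero hn he) hn).2 he p

lemma flip_empty {n : ℕ} (hn : n ≠ 0) {e : ℕ} (he : e ∣ n) : flip n ∅ e = e := by
  have he0 : e ≠ 0 := ne_zero_of_dvd_ne_zero hn he
  unfold flip
  simp only [Finset.notMem_empty, if_false]
  conv_rhs => rw [← Nat.prod_factorization_pow_eq_self he0]
  rw [Finsupp.prod, Nat.support_factorization]
  symm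
  apply Finset.prod_subset (Nat.primeFactors_mono he hn)
  intro p _ hp
  rw [Nat.factorization_eq_zero_of_not_dvd, pow_zero]
  intro h
  by_cases hpp : p.Prime
  · exact hp (Nat.mem_primeFactors.2 ⟨hpp, h, he0⟩)
  · exact absurd (Nat.prime_of_mem_primeFactors (by assumption)) hpp

lemma flip_mul {n : ℕ} (hn : n ≠ 0) (S : Finset ℕ) {e : ℕ} (he : e ∣ n) :
    flip n n.primeFactors e * flip n ∅ e = n := by
  have he0 : e ≠ 0 := ne_zero_of_dvd_ne_zero hn he
  conv_rhs => rw [← Nat.prod_factorization_pow_eq_self hn]
  rw [Finsupp.prod, Nat.support_factorization]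
  unfold flip
  rw [← Finset.prod_mul_distrib]
  apply Finset.prod_congr rfl
  intro p hp
  rw [if_pos hp, if_neg (Finset.notMem_empty p), ← pow_add]
  congr 1
  have := (Nat.factorization_le_iff_dvd he0 hn).2 he p
  omega

lemma flip_inj {n : ℕ} (hn : n ≠ 0) (S : Finset ℕ) {e e' : ℕ} (he : e ∣ n) (he' : e' ∣ n)
    (h : flip n S e = flip n S e') : e = e' := by
  have he0 : e ≠ 0 := ne_zero_of_dvd_ne_zero hn he
  have he0' : e' ≠ 0 := ne_zero_of_dvd_ne_zero hn he'
  apply Nat.eq_of_factorization_eq he0 he0'
  intro q
  by_cases hq : q ∈ n.primeFactors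
  · have h1 := flip_fact n S e q hq
    have h2 := flip_fact n S e' q hq
    rw [h, h2] at h1
    have l1 := (Nat.factorization_le_iff_dvd he0 hn).2 he q
    have l2 := (Nat.factorization_le_iff_dvd he0' hn).2 he' q
    split_ifs at h1
    · omega
    · omega
  · have hz : n.factorization q = 0 := by
      rw [← Finsupp.notMem_support_iff, Nat.support_factorization]; exact hq
    have l1 := (Nat.factorization_le_iff_dvd he0 hn).2 he q
    have l2 := (Nat.factorization_le_iff_dvd he0' hn).2 he' q
    omega

lemma flip_step {n : ℕ} (S : Finset ℕ) {e : ℕ} {q M : ℕ}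
    (hqn : q ∈ n.primeFactors) (hq : q ∉ S) (he : e.factorization q ≤ n.factorization q)
    (hM : q ^ n.factorization q ≤ M) :
    flip n (insert q S) e ≤ M * flip n S e ∧ flip n S e ≤ M * flip n (insert q S) e := by
  have hqp := Nat.prime_of_mem_primeFactors hqn
  set R := ∏ p ∈ n.primeFactors.erase q, p ^ (if p ∈ S then n.factorization p - e.factorization p
    else e.factorization p) with hR
  have e1 : flip n S e = q ^ (e.factorization q) * R := by
    unfold flip
    rw [← Finset.mul_prod_erase _ _ hqn, if_neg hq]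
  have e2 : flip n (insert q S) e = q ^ (n.factorization q - e.factorization q) * R := by
    unfold flip
    rw [← Finset.mul_prod_erase _ _ hqn, if_pos (Finset.mem_insert_self q S)]
    congr 1
    apply Finset.prod_congr rfl
    intro p hp
    have hpq : p ≠ q := Finset.ne_of_mem_erase hp
    simp only [Finset.mem_insert, hpq, false_or]
  have b1 : q ^ (n.factorization q - e.factorization q) ≤ M :=
    (Nat.pow_le_pow_right hqp.pos (Nat.sub_le _ _)).trans hM
  have b2 : q ^ (e.factorization q) ≤ M := (Nat.pow_le_pow_right hqp.pos he).trans hM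
  have b3 : 1 ≤ q ^ (e.factorization q) := Nat.one_le_pow _ _ hqp.pos
  have b4 : 1 ≤ q ^ (n.factorization q - e.factorization q) := Nat.one_le_pow _ _ hqp.pos
  rw [e1, e2]
  constructor
  · calc q ^ (n.factorization q - e.factorization q) * R ≤ M * R := Nat.mul_le_mul_right _ b1
      _ ≤ M * (q ^ (e.factorization q) * R) :=
        Nat.mul_le_mul_left _ (Nat.le_mul_of_pos_left _ b3)
  · calc q ^ (e.factorization q) * R ≤ M * R := Nat.mul_le_mul_right _ b2
      _ ≤ M * (q ^ (n.factorization q - e.factorization q) * R) :=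
        Nat.mul_le_mul_left _ (Nat.le_mul_of_pos_left _ b4)

/-- the divisors near the square root. -/
def W (n M : ℕ) : Finset ℕ := n.divisors.filter (fun e => e ^ 2 ≤ M ^ 2 * n ∧ n ≤ M ^ 2 * e ^ 2)

/-- a proportion `1 / (ω(n) + 1)` of the divisors is near the square root. -/
theorem card_W {n M : ℕ} (hn : n ≠ 0) (hM1 : 1 ≤ M)
    (hM : ∀ p ∈ n.primeFactors, p ^ n.factorization p ≤ M) :
    n.divisors.card ≤ (n.primeFactors.card + 1) * (W n M).card := by
  classical
  set L := n.primeFactors.toList with hL
  have hLlen : L.length = n.primeFactors.card := Finset.length_toList _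
  have hLnd : L.Nodup := Finset.nodup_toList _
  have hLmem : ∀ p, p ∈ L ↔ p ∈ n.primeFactors := fun p => Finset.mem_toList
  let S : ℕ → Finset ℕ := fun t => (L.take t).toFinset
  have hS0 : S 0 = ∅ := by simp [S]
  have hSω : S n.primeFactors.card = n.primeFactors := by
    simp only [S]
    rw [← hLlen, List.take_length]
    ext p
    rw [List.mem_toFinset, hLmem]
  have hstep : ∀ t < n.primeFactors.card, ∀ e, e ∣ n →
      flip n (S (t + 1)) e ≤ M * flip n (S t) e ∧ flip n (S t) e ≤ M * flip n (S (t + 1)) e := by
    intro t ht e he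
    have htL : t < L.length := by rw [hLlen]; exact ht
    have h1 : S (t + 1) = insert L[t] (S t) := by
      simp only [S]
      rw [List.take_succ_eq_append_getElem htL, List.toFinset_append]
      ext p
      simp only [List.toFinset_cons, List.toFinset_nil, Finset.mem_union, Finset.mem_insert,
        List.mem_toFinset, Finset.notMem_empty, or_false]
      tauto
    have h2 : L[t] ∉ S t := by
      simp only [S, List.mem_toFinset]
      intro h
      obtain ⟨i, hi, hi2⟩ := List.getElem_of_mem h
      have hi' : i < t := by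
        have := hi; rw [List.length_take] at this; omega
      rw [List.getElem_take] at hi2
      have := (List.Nodup.getElem_inj_iff hLnd).1 hi2
      omega
    have h3 : L[t] ∈ n.primeFactors := (hLmem _).1 (List.getElem_mem htL)
    rw [h1]
    exact flip_step (S t) h3 h2
      ((Nat.factorization_le_iff_dvd (ne_zero_of_dvd_ne_zero hn he) hn).2 he _) (hM _ h3)
  -- crossing
  have hcross : ∀ e ∈ n.divisors, ∃ t ∈ Finset.range (n.primeFactors.card + 1),
      flip n (S t) e ∈ W n M := by
    intro e he
    have hed : e ∣ n := (Nat.mem_divisors.1 he).1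
    have hprod : flip n (S n.primeFactors.card) e * flip n (S 0) e = n := by
      rw [hSω, hS0]; exact flip_mul hn ∅ hed
    have hmemd : ∀ t, flip n (S t) e ∈ n.divisors := fun t =>
      Nat.mem_divisors.2 ⟨flip_dvd hn _ hed, hn⟩
    have hMsq : 1 ≤ M ^ 2 := Nat.one_le_pow _ _ hM1
    rcases le_total ((flip n (S 0) e) ^ 2) n with h0 | h0
    · -- increasing crossing
      have hlast : n ≤ (flip n (S n.primeFactors.card) e) ^ 2 := by
        by_contra hcon
        push Not at hcon
        have h1 : (flip n (S n.primeFactors.card) e * flip n (S 0) e) ^ 2 < n ^ 2 := by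
          rw [mul_pow]
          have hp0 : 0 < (flip n (S 0) e) ^ 2 := pow_pos (flip_pos _ _ _) 2
          calc _ < n * (flip n (S 0) e) ^ 2 := Nat.mul_lt_mul_of_pos_right hcon hp0
            _ ≤ n * n := Nat.mul_le_mul_left _ h0
            _ = n ^ 2 := by ring
        rw [hprod] at h1
        exact lt_irrefl _ h1
      have hex : ∃ t, n ≤ (flip n (S t) e) ^ 2 := ⟨_, hlast⟩
      have hle : Nat.find hex ≤ n.primeFactors.card := Nat.find_min' hex hlast
      have hspec := Nat.find_spec hex
      have hmin := fun m (hm : m < Nat.find hex) => Nat.find_min hex hm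
      set t := Nat.find hex with ht
      refine ⟨t, Finset.mem_range.2 (by omega), Finset.mem_filter.2 ⟨hmemd t, ?_, ?_⟩⟩
      · rcases Nat.eq_zero_or_pos t with h | h
        · rw [h]
          exact h0.trans (Nat.le_mul_of_pos_left _ hMsq)
        · obtain ⟨s, hs⟩ : ∃ s, t = s + 1 := ⟨t - 1, by omega⟩
          have h1 := hmin s (by omega)
          push Not at h1
          have h2 := (hstep s (by omega) e hed).1
          rw [← hs] at h2
          calc (flip n (S t) e) ^ 2 ≤ (M * flip n (S s) e) ^ 2 := Nat.pow_le_pow_left h2 2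
            _ = M ^ 2 * (flip n (S s) e) ^ 2 := by ring
            _ ≤ M ^ 2 * n := Nat.mul_le_mul_left _ h1.le
      · exact hspec.trans (Nat.le_mul_of_pos_left _ hMsq)
    · -- decreasing crossing
      have hlast : (flip n (S n.primeFactors.card) e) ^ 2 ≤ n := by
        by_contra hcon
        push Not at hcon
        have h1 : n ^ 2 < (flip n (S n.primeFactors.card) e * flip n (S 0) e) ^ 2 := by
          rw [mul_pow]
          have hp0 : 0 < n := Nat.pos_of_ne_zero hn
          calc n ^ 2 = n * n := by ring
            _ ≤ n * (flip n (S 0) e) ^ 2 := Nat.mul_le_mul_left _ h0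
            _ < _ := Nat.mul_lt_mul_of_pos_right hcon (lt_of_lt_of_le hp0 h0)
        rw [hprod] at h1
        exact lt_irrefl _ h1
      have hex : ∃ t, (flip n (S t) e) ^ 2 ≤ n := ⟨_, hlast⟩
      have hle : Nat.find hex ≤ n.primeFactors.card := Nat.find_min' hex hlast
      have hspec := Nat.find_spec hex
      have hmin := fun m (hm : m < Nat.find hex) => Nat.find_min hex hm
      set t := Nat.find hex with ht
      refine ⟨t, Finset.mem_range.2 (by omega), Finset.mem_filter.2 ⟨hmemd t, ?_, ?_⟩⟩
      · exact hspec.trans (Nat.le_mul_of_pos_left _ hMsq)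
      · rcases Nat.eq_zero_or_pos t with h | h
        · rw [h]
          exact h0.trans (Nat.le_mul_of_pos_left _ hMsq)
        · obtain ⟨s, hs⟩ : ∃ s, t = s + 1 := ⟨t - 1, by omega⟩
          have h1 := hmin s (by omega)
          push Not at h1
          have h2 := (hstep s (by omega) e hed).2
          rw [← hs] at h2
          calc n ≤ (flip n (S s) e) ^ 2 := h1.le
            _ ≤ (M * flip n (S t) e) ^ 2 := Nat.pow_le_pow_left h2 2
            _ = M ^ 2 * (flip n (S t) e) ^ 2 := by ring
  choose! f hf using hcross
  have hinj : Set.InjOn (fun e => (f e, flip n (S (f e)) e)) (n.divisors : Set ℕ) := by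
    intro e he e' he' h
    simp only [Prod.mk.injEq] at h
    obtain ⟨h1, h2⟩ := h
    rw [h1] at h2
    exact flip_inj hn _ (Nat.mem_divisors.1 (Finset.mem_coe.1 he)).1
      (Nat.mem_divisors.1 (Finset.mem_coe.1 he')).1 h2
  have hcard := Finset.card_le_card_of_injOn (s := n.divisors)
    (t := Finset.range (n.primeFactors.card + 1) ×ˢ W n M)
    (fun e => (f e, flip n (S (f e)) e)) (fun e he => by
      have := hf e (Finset.mem_coe.1 he)
      simp only [Finset.coe_product, Set.mem_prod, Finset.mem_coe]
      exact ⟨this.1, this.2⟩) hinj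
  rwa [Finset.card_product, Finset.card_range] at hcard

end H34.WSG
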