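import Pool.Graph.R_pool_sql_team_22a80281.Lib.helper25_.WangShi

namespace H34.WSG

open Finset Pool.Agent.Lib.helper25.WangShi

theorem lines_le (A B C : ℝ × ℝ) (hT : (B - A).1 * (C - A).2 - (B - A).2 * (C - A).1 ≠ 0)
    (d : ℕ) (hd : 1 ≤ d) (s t : ℝ) (hs : 0 < s) (ht : 0 < t) (hst : s + t < 1) :
    {l ∈ WS A B C d | pt A B C s t ∈ l}.encard ≤
      (((N d (d * s) (d * t)).card + (N d (d * t) (d * (1 - s - t))).card +
        (N d (d * (1 - s - t)) (d * s)).card : ℕ) : ℕ∞) := by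
  classical
  have hd' : (0 : ℝ) < d := by exact_mod_cast hd
  obtain ⟨x, hx⟩ : ∃ x, x = d * s := ⟨_, rfl⟩
  obtain ⟨y, hy⟩ : ∃ y, y = d * t := ⟨_, rfl⟩
  obtain ⟨z, hz⟩ : ∃ z, z = d * (1 - s - t) := ⟨_, rfl⟩
  have x0 : 0 < x := by rw [hx]; positivity
  have y0 : 0 < y := by rw [hy]; positivity
  have z0 : 0 < z := by rw [hz]; exact mul_pos hd' (by linarith)
  have hsum : z + x + y = d := by rw [hx, hy, hz]; ring
  let L : ℕ × ℕ → ℕ × ℕ → AffineSubspace ℝ (ℝ × ℝ) := fun q r =>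
    line[ℝ, divPt A B C d q, divPt A B C d r]
  have Lc : ∀ q r, L q r = L r q := fun q r => by simp only [L, Set.pair_comm]
  let f1 : ℕ × ℕ → AffineSubspace ℝ (ℝ × ℝ) := fun q => L (q.1, 0) (0, q.2)
  let f2 : ℕ × ℕ → AffineSubspace ℝ (ℝ × ℝ) := fun q => L (d - q.1, q.1) (d - q.2, 0)
  let f3 : ℕ × ℕ → AffineSubspace ℝ (ℝ × ℝ) := fun q => L (0, d - q.1) (q.2, d - q.2)
  let U := (N' d x y).image f1 ∪ (N' d y z).image f2 ∪ (N' d z x).image f3
  have m1 : ∀ q ∈ N d x y, f1 q ∈ U := by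
    intro q hq
    by_cases e : q.2 = d
    · have h1 := N_swap (shift z0 x0 y0 hsum hq e)
      have h2 := (mem_N.1 hq).1
      refine mem_union_left _ (mem_union_right _ (mem_image.2 ⟨_, mem_filter.2 ⟨h1, ?_⟩, ?_⟩))
      · simp only [Prod.swap_prod_mk]; omega
      · simp only [f1, f2, Prod.swap_prod_mk, Nat.sub_self, e, Nat.sub_sub_self h2.2]
        exact Lc _ _
    · exact mem_union_left _ (mem_union_left _ (mem_image.2 ⟨q, mem_filter.2 ⟨hq, e⟩, rfl⟩))
  have m2 : ∀ q ∈ N d y z, f2 q ∈ U := by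
    intro q hq
    by_cases e : q.2 = d
    · have h1 := N_swap (shift x0 y0 z0 (by linarith) hq e)
      have h2 := (mem_N.1 hq).1
      refine mem_union_right _ (mem_image.2 ⟨_, mem_filter.2 ⟨h1, ?_⟩, ?_⟩)
      · simp only [Prod.swap_prod_mk]; omega
      · simp only [f3, f2, Prod.swap_prod_mk, Nat.sub_self, e, Nat.sub_sub_self h2.2]
        exact Lc _ _
    · exact mem_union_left _ (mem_union_right _ (mem_image.2 ⟨q, mem_filter.2 ⟨hq, e⟩, rfl⟩))
  have m3 : ∀ q ∈ N d z x, f3 q ∈ U := by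
    intro q hq
    by_cases e : q.2 = d
    · have h1 := N_swap (shift y0 z0 x0 (by linarith) hq e)
      have h2 := (mem_N.1 hq).1
      refine mem_union_left _ (mem_union_left _ (mem_image.2 ⟨_, mem_filter.2 ⟨h1, ?_⟩, ?_⟩))
      · simp only [Prod.swap_prod_mk]; omega
      · simp only [f3, f1, Prod.swap_prod_mk, Nat.sub_self, e]
        exact Lc _ _
    · exact mem_union_right _ (mem_image.2 ⟨q, mem_filter.2 ⟨hq, e⟩, rfl⟩)
  have eqn : ∀ q r, pt A B C s t ∈ L q r →
      (x - q.1) * ((r.2 : ℝ) - q.2) = (y - q.2) * ((r.1 : ℝ) - q.1) := by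
    intro q r h
    have := coords hT h
    rw [hx, hy]
    field_simp at this
    linarith
  have c1 : ∀ q r, IsDiv d q → IsDiv d r → ¬ SameSide d q r → pt A B C s t ∈ L q r →
      q.2 = 0 → r.1 = 0 → L q r ∈ U := by
    rintro ⟨i, j⟩ ⟨k, l⟩ hq hr hn h rfl rfl
    have := eqn _ _ h
    unfold IsDiv at hq hr
    unfold SameSide at hn
    dsimp only at hq hr hn
    refine m1 (i, l) (mem_N.2 ⟨by simp only; omega, by simp only; omega, ?_⟩)
    simp only [Nat.cast_zero] at this ⊢
    linarith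
  have c2 : ∀ q r, IsDiv d q → IsDiv d r → ¬ SameSide d q r → pt A B C s t ∈ L q r →
      q.1 + q.2 = d → r.2 = 0 → L q r ∈ U := by
    rintro ⟨i, j⟩ ⟨k, l⟩ hq hr hn h e rfl
    have := eqn _ _ h
    unfold IsDiv at hq hr
    unfold SameSide at hn
    dsimp only at hq hr hn e
    have h1 := m2 (j, d - k) (mem_N.2 ⟨by simp only; omega, by simp only; omega, by
      have e' : (i : ℝ) = d - j := by rw [← e]; push_cast; ring
      simp only [Nat.cast_zero] at this ⊢
      rw [Nat.cast_sub (by omega), show z = d - x - y by linarith]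
      rw [e'] at this
      linarith⟩)
    simp only [f2] at h1
    rwa [show d - j = i by omega, show d - (d - k) = k by omega] at h1
  have c3 : ∀ q r, IsDiv d q → IsDiv d r → ¬ SameSide d q r → pt A B C s t ∈ L q r →
      q.1 = 0 → r.1 + r.2 = d → L q r ∈ U := by
    rintro ⟨i, j⟩ ⟨k, l⟩ hq hr hn h rfl e
    have := eqn _ _ h
    unfold IsDiv at hq hr
    unfold SameSide at hn
    dsimp only at hq hr hn e
    have h1 := m3 (d - j, k) (mem_N.2 ⟨by simp only; omega, by simp only; omega, by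
      have e' : (l : ℝ) = d - k := by rw [← e]; push_cast; ring
      simp only [Nat.cast_zero] at this ⊢
      rw [Nat.cast_sub (by omega), show z = d - x - y by linarith]
      rw [e'] at this
      linarith⟩)
    simp only [f3] at h1
    rwa [show d - (d - j) = j by omega, show d - k = l by omega] at h1
  have hsub : {l ∈ WS A B C d | pt A B C s t ∈ l} ⊆ (U : Set (AffineSubspace ℝ (ℝ × ℝ))) := by
    rintro l ⟨⟨q, r, hq, hr, hn, rfl⟩, h⟩
    have hn' : ¬ SameSide d r q := by unfold SameSide at hn ⊢; tauto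
    have h' : pt A B C s t ∈ L r q := by rw [Lc]; exact h
    show L q r ∈ U
    rcases hq.2 with a | a | a <;> rcases hr.2 with b | b | b
    · exact absurd (Or.inl ⟨a, b⟩) hn
    · rw [Lc]; exact c1 r q hr hq hn' h' b a
    · exact c3 q r hq hr hn h a b
    · exact c1 q r hq hr hn h a b
    · exact absurd (Or.inr (Or.inl ⟨a, b⟩)) hn
    · rw [Lc]; exact c2 r q hr hq hn' h' b a
    · rw [Lc]; exact c3 r q hr hq hn' h' b a
    · exact c2 q r hq hr hn h a b
    · exact absurd (Or.inr (Or.inr ⟨a, b⟩)) hn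
  refine (Set.encard_le_encard hsub).trans ?_
  rw [Set.encard_coe_eq_coe_finsetCard]
  have hN : ∀ b c : ℝ, (N' d b c).card ≤ (N d b c).card := fun b c => card_filter_le _ _
  have h1 : U.card ≤ (N d x y).card + (N d y z).card + (N d z x).card := by
    refine (card_union_le _ _).trans (add_le_add ((card_union_le _ _).trans
      (add_le_add (card_image_le.trans (hN _ _)) (card_image_le.trans (hN _ _))))
      (card_image_le.trans (hN _ _)))
  rw [← hx, ← hy, ← hz]
  exact_mod_cast h1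

/-- the lattice points on the hyperbola are governed by divisors. -/
theorem N_card_le {d : ℕ} (hd : 1 ≤ d) {b c : ℝ} (hb : 0 < b) (hc : 0 < c) :
    ∃ n : ℕ, 1 ≤ n ∧ n ≤ d ^ 6 ∧ (N d b c).card ≤ n.divisors.card := by
  classical
  by_cases h1 : (N d b c).card ≤ 1
  · exact ⟨1, le_rfl, Nat.one_le_pow _ _ hd, by simpa using h1⟩
  push Not at h1
  obtain ⟨q0, hq0, r0, hr0, hne⟩ := Finset.one_lt_card.1 h1
  obtain ⟨q, hq, r, hr, hlt1, hlt2⟩ : ∃ q ∈ N d b c, ∃ r ∈ N d b c, q.1 < r.1 ∧ r.2 < q.2 := by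
    rcases N_tri hb hc hq0 hr0 with t | t | t
    · exact absurd t hne
    · exact ⟨q0, hq0, r0, hr0, t.1, t.2⟩
    · exact ⟨r0, hr0, q0, hq0, t.1, t.2⟩
  obtain ⟨⟨a1, a1'⟩, ⟨a2, a2'⟩, a3⟩ := mem_N.1 hq
  obtain ⟨⟨b1, b1'⟩, ⟨b2, b2'⟩, b3⟩ := mem_N.1 hr
  obtain ⟨i, j⟩ := q
  obtain ⟨i', j'⟩ := r
  dsimp only at *
  obtain ⟨u, rfl⟩ : ∃ u, i' = i + u := ⟨i' - i, by omega⟩
  obtain ⟨v, rfl⟩ : ∃ v, j = j' + v := ⟨j - j', by omega⟩
  have hu : 1 ≤ u := by omega
  have hv : 1 ≤ v := by omega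
  -- Z = j i' - i j' = i v + j' u + u v
  set Z : ℕ := i * v + j' * u + u * v with hZ
  set X : ℕ := i * (i + u) * v with hX
  set Y : ℕ := (j' + v) * j' * u with hY
  have hZ1 : 1 ≤ Z := by
    have : 1 ≤ u * v := Nat.mul_pos hu hv
    omega
  have hX1 : 1 ≤ X := Nat.mul_pos (Nat.mul_pos a1 (by omega)) hv
  have hY1 : 1 ≤ Y := Nat.mul_pos (Nat.mul_pos (by omega) b2) hu
  push_cast at a3 b3
  have eX : b * Z = X := by
    rw [hZ, hX]; push_cast
    linear_combination ((i : ℝ) + u) * a3 - (i : ℝ) * b3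
  have eY : c * Z = Y := by
    rw [hZ, hY]; push_cast
    linear_combination ((j' : ℝ) + v) * b3 - (j' : ℝ) * a3
  have hZpos : (0 : ℝ) < Z := by exact_mod_cast hZ1
  refine ⟨X * Y, Nat.mul_pos hX1 hY1, ?_, ?_⟩
  · have h1 : X ≤ d * d * d := by
      rw [hX]
      exact Nat.mul_le_mul (Nat.mul_le_mul a1' b1') (by omega)
    have h2 : Y ≤ d * d * d := by
      rw [hY]
      exact Nat.mul_le_mul (Nat.mul_le_mul a2' b2') (by omega)
    calc X * Y ≤ (d * d * d) * (d * d * d) := Nat.mul_le_mul h1 h2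
      _ = d ^ 6 := by ring
  · apply Finset.card_le_card_of_injOn (fun w : ℕ × ℕ => Z * w.1 - X)
    · intro w hw
      obtain ⟨⟨c1, c1'⟩, ⟨c2, c2'⟩, c3⟩ := mem_N.1 hw
      have p1 : (0 : ℝ) < w.1 := by exact_mod_cast c1
      have p2 : (0 : ℝ) < w.2 := by exact_mod_cast c2
      obtain ⟨g1, g2⟩ := gt_of hb hc p1 p2 c3
      have l1 : X < Z * w.1 := by
        have : (X : ℝ) < Z * w.1 := by rw [← eX]; nlinarith
        exact_mod_cast this
      have l2 : Y < Z * w.2 := by
        have : (Y : ℝ) < Z * w.2 := by rw [← eY]; nlinarith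
        exact_mod_cast this
      have hprod : (Z * w.1 - X) * (Z * w.2 - Y) = X * Y := by
        have : (((Z * w.1 - X : ℕ) : ℝ)) * ((Z * w.2 - Y : ℕ) : ℝ) = X * Y := by
          rw [Nat.cast_sub l1.le, Nat.cast_sub l2.le]
          push_cast
          rw [← eX, ← eY]
          linear_combination -((Z : ℝ) ^ 2) * c3
        exact_mod_cast this
      simp only [Finset.mem_coe, Nat.mem_divisors]
      exact ⟨⟨_, hprod.symm⟩, (Nat.mul_pos hX1 hY1).ne'⟩
    · intro w hw w' hw' e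
      have hw := Finset.mem_coe.1 hw
      have hw' := Finset.mem_coe.1 hw'
      have key : ∀ w ∈ N d b c, X < Z * w.1 := by
        intro w hw
        obtain ⟨⟨c1, c1'⟩, ⟨c2, c2'⟩, c3⟩ := mem_N.1 hw
        have p1 : (0 : ℝ) < w.1 := by exact_mod_cast c1
        have p2 : (0 : ℝ) < w.2 := by exact_mod_cast c2
        obtain ⟨g1, g2⟩ := gt_of hb hc p1 p2 c3
        have : (X : ℝ) < Z * w.1 := by rw [← eX]; nlinarith
        exact_mod_cast this
      have k1 := key w hw
      have k2 := key w' hw'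
      simp only at e
      have e1 : Z * w.1 = Z * w'.1 := by omega
      have e2 : w.1 = w'.1 := Nat.eq_of_mul_eq_mul_left (by omega) e1
      rcases N_tri hb hc hw hw' with t | t | t
      · exact t
      · omega
      · omega

/-- many lines through the symmetric point `(m/d, m/d)`. -/
theorem lines_ge (A B C : ℝ × ℝ) (hT : (B - A).1 * (C - A).2 - (B - A).2 * (C - A).1 ≠ 0)
    (d m : ℕ) (hm : 2 ≤ m) (hmd : m ^ 2 + m ≤ d) :
    (((m ^ 2).divisors.card : ℕ) : ℕ∞) ≤
      {l ∈ WS A B C d | pt A B C ((m : ℝ) / d) ((m : ℝ) / d) ∈ l}.encard := by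
  classical
  have hd : 1 ≤ d := by nlinarith
  have hd' : (0 : ℝ) < d := by exact_mod_cast hd
  have hm2 : m ^ 2 ≠ 0 := by positivity
  let f : ℕ → AffineSubspace ℝ (ℝ × ℝ) := fun e =>
    line[ℝ, divPt A B C d (m + e, 0), divPt A B C d (0, m + m ^ 2 / e)]
  have hsub : f '' ((m ^ 2).divisors : Set ℕ) ⊆
      {l ∈ WS A B C d | pt A B C ((m : ℝ) / d) ((m : ℝ) / d) ∈ l} := by
    rintro _ ⟨e, he, rfl⟩
    have he' := Nat.mem_divisors.1 (Finset.mem_coe.1 he)
    obtain ⟨g, hg⟩ := he'.1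
    have he0 : 1 ≤ e := Nat.pos_of_mem_divisors (Finset.mem_coe.1 he)
    have hg0 : 1 ≤ g := by
      rcases Nat.eq_zero_or_pos g with h | h
      · rw [h] at hg; simp at hg; omega
      · exact h
    have hdiv : m ^ 2 / e = g := by rw [hg]; exact Nat.mul_div_cancel_left g he0
    have hel : e ≤ m ^ 2 := Nat.le_of_dvd (by positivity) he'.1
    have hgl : g ≤ m ^ 2 := by rw [hg]; exact Nat.le_mul_of_pos_left g he0
    constructor
    · refine ⟨(m + e, 0), (0, m + g), ?_, ?_, ?_, ?_⟩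
      · unfold IsDiv; dsimp only; omega
      · unfold IsDiv; dsimp only; omega
      · unfold SameSide; dsimp only
        rintro (h | h | h)
        · omega
        · omega
        · have q1 : m ^ 2 ≤ e := by omega
          have q2 : m ^ 2 ≤ g := by omega
          have q3 : m ^ 2 * m ^ 2 ≤ e * g := Nat.mul_le_mul q1 q2
          have q4 : 4 ≤ m ^ 2 := by nlinarith
          rw [← hg] at q3
          nlinarith
      · simp only [f, hdiv]
    · simp only [f, hdiv]
      rw [mem_affineSpan_pair_iff_exists_lineMap_eq]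
      have hge : ((m : ℝ) + g) ≠ 0 := by positivity
      have hgR : (m : ℝ) ^ 2 = e * g := by exact_mod_cast hg
      refine ⟨(m : ℝ) / (m + g), ?_⟩
      rw [AffineMap.lineMap_apply]
      simp only [divPt, pt]
      have e1 : (1 - (m : ℝ) / (m + g)) * ((m + e) / d) = m / d := by
        field_simp
        linear_combination -hgR
      have e2 : (m : ℝ) / (m + g) * ((m + g) / d) = m / d := by
        field_simp
      ext
      · simp only [vsub_eq_sub, vadd_eq_add, Prod.fst_add, Prod.smul_fst, Prod.fst_sub, smul_eq_mul]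
        push_cast
        linear_combination (B.1 - A.1) * e1 + (C.1 - A.1) * e2
      · simp only [vsub_eq_sub, vadd_eq_add, Prod.snd_add, Prod.smul_snd, Prod.snd_sub, smul_eq_mul]
        push_cast
        linear_combination (B.2 - A.2) * e1 + (C.2 - A.2) * e2
  have hinj : Set.InjOn f ((m ^ 2).divisors : Set ℕ) := by
    intro e he e' he' h
    have h1 : divPt A B C d (m + e', 0) ∈ f e := by
      rw [h]; exact left_mem_affineSpan_pair ℝ _ _
    have h2 := coords hT h1
    have hpos : (0 : ℝ) < (((m + m ^ 2 / e : ℕ) : ℝ)) / d := by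
      apply div_pos _ hd'
      exact_mod_cast (Nat.add_pos_left (by omega) _ : 0 < m + m ^ 2 / e)
    simp only [Nat.cast_zero, zero_div, sub_zero, sub_self, zero_mul] at h2
    have h3 : (((m + e' : ℕ) : ℝ) / d - ((m + e : ℕ) : ℝ) / d) = 0 := by
      rcases mul_eq_zero.1 h2 with h | h
      · exact h
      · exact absurd h hpos.ne'
    have h4 : ((m + e' : ℕ) : ℝ) = ((m + e : ℕ) : ℝ) := by
      field_simp at h3
      linarith
    have h5 : m + e' = m + e := by exact_mod_cast h4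
    omega
  calc (((m ^ 2).divisors.card : ℕ) : ℕ∞) = (((m ^ 2).divisors : Set ℕ)).encard := by
        rw [Set.encard_coe_eq_coe_finsetCard]
    _ = (f '' ((m ^ 2).divisors : Set ℕ)).encard := (hinj.encard_image).symm
    _ ≤ _ := Set.encard_le_encard hsub

end H34.WSG
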