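import Pool.Agent.H34.WSG.Geo

namespace H34.WSG

open Finset Pool.Agent.Lib.helper25.WangShi

/-- many lines through the point `(a/d, b/d)`. -/
theorem lines_ge2 (A B C : ℝ × ℝ) (hT : (B - A).1 * (C - A).2 - (B - A).2 * (C - A).1 ≠ 0)
    (d a b : ℕ) (ha : 1 ≤ a) (hb : 1 ≤ b) (hd : 1 ≤ d) (E : Finset ℕ)
    (hE : ∀ e ∈ E, e ∣ a * b ∧ a + e < d ∧ b + a * b / e ≤ d) :
    ((E.card : ℕ) : ℕ∞) ≤
      {l ∈ WS A B C d | pt A B C ((a : ℝ) / d) ((b : ℝ) / d) ∈ l}.encard := by
  classical
  have hd' : (0 : ℝ) < d := by exact_mod_cast hd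
  have hab : 0 < a * b := Nat.mul_pos ha hb
  let f : ℕ → AffineSubspace ℝ (ℝ × ℝ) := fun e =>
    line[ℝ, divPt A B C d (a + e, 0), divPt A B C d (0, b + a * b / e)]
  have hsub : f '' (E : Set ℕ) ⊆
      {l ∈ WS A B C d | pt A B C ((a : ℝ) / d) ((b : ℝ) / d) ∈ l} := by
    rintro _ ⟨e, he, rfl⟩
    obtain ⟨hdvd, hlt, hle⟩ := hE e (Finset.mem_coe.1 he)
    obtain ⟨g, hg⟩ := hdvd
    have he0 : 1 ≤ e := by
      rcases Nat.eq_zero_or_pos e with h | h
      · rw [h] at hg; simp at hg; omega
      · exact h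
    have hg0 : 1 ≤ g := by
      rcases Nat.eq_zero_or_pos g with h | h
      · rw [h] at hg; simp at hg; omega
      · exact h
    have hdiv : a * b / e = g := by rw [hg]; exact Nat.mul_div_cancel_left g he0
    rw [hdiv] at hle
    constructor
    · refine ⟨(a + e, 0), (0, b + g), ?_, ?_, ?_, ?_⟩
      · unfold IsDiv; dsimp only; omega
      · unfold IsDiv; dsimp only; omega
      · unfold SameSide; dsimp only
        rintro (h | h | h)
        · omega
        · omega
        · omega
      · simp only [f, hdiv]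
    · simp only [f, hdiv]
      rw [mem_affineSpan_pair_iff_exists_lineMap_eq]
      have hgR : (a : ℝ) * b = e * g := by exact_mod_cast hg
      have ha' : (0 : ℝ) < a := by exact_mod_cast ha
      have hb' : (0 : ℝ) < b := by exact_mod_cast hb
      have he' : (0 : ℝ) < e := by exact_mod_cast he0
      have hg' : (0 : ℝ) < g := by exact_mod_cast hg0
      refine ⟨(b : ℝ) / (b + g), ?_⟩
      rw [AffineMap.lineMap_apply]
      simp only [divPt, pt]
      have e1 : (1 - (b : ℝ) / (b + g)) * ((a + e) / d) = a / d := by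
        field_simp
        linear_combination -hgR
      have e2 : (b : ℝ) / (b + g) * ((b + g) / d) = b / d := by
        field_simp
      ext
      · simp only [vsub_eq_sub, vadd_eq_add, Prod.fst_add, Prod.smul_fst, Prod.fst_sub, smul_eq_mul]
        push_cast
        linear_combination (B.1 - A.1) * e1 + (C.1 - A.1) * e2
      · simp only [vsub_eq_sub, vadd_eq_add, Prod.snd_add, Prod.smul_snd, Prod.snd_sub, smul_eq_mul]
        push_cast
        linear_combination (B.2 - A.2) * e1 + (C.2 - A.2) * e2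
  have hinj : Set.InjOn f (E : Set ℕ) := by
    intro e he e' he' h
    have h1 : divPt A B C d (a + e', 0) ∈ f e := by
      rw [h]; exact left_mem_affineSpan_pair ℝ _ _
    have h2 := coords hT h1
    have hpos : (0 : ℝ) < (((b + a * b / e : ℕ) : ℝ)) / d := by
      apply div_pos _ hd'
      exact_mod_cast (Nat.add_pos_left (by omega) _ : 0 < b + a * b / e)
    simp only [Nat.cast_zero, zero_div, sub_zero, sub_self, zero_mul] at h2
    have h3 : (((a + e' : ℕ) : ℝ) / d - ((a + e : ℕ) : ℝ) / d) = 0 := by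
      rcases mul_eq_zero.1 h2 with h | h
      · exact h
      · exact absurd h hpos.ne'
    have h4 : ((a + e' : ℕ) : ℝ) = ((a + e : ℕ) : ℝ) := by
      field_simp at h3
      linarith
    have h5 : a + e' = a + e := by exact_mod_cast h4
    omega
  calc ((E.card : ℕ) : ℕ∞) = ((E : Set ℕ)).encard := by
        rw [Set.encard_coe_eq_coe_finsetCard]
    _ = (f '' (E : Set ℕ)).encard := (hinj.encard_image).symm
    _ ≤ _ := Set.encard_le_encard hsub

/-- with `2 r` primes not larger than `k` and `2 * k ^ r < d` there is a point with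
`centralBinom r` lines. -/
theorem exists_ab (d k r : ℕ) (hk : 1 ≤ k) (hkr : 2 * k ^ r < d)
    (hr : 2 * r ≤ Nat.primeCounting k) :
    ∃ a b : ℕ, 1 ≤ a ∧ 1 ≤ b ∧ a + b < d ∧ ∃ E : Finset ℕ, E.card = Nat.centralBinom r ∧
      ∀ e ∈ E, e ∣ a * b ∧ a + e < d ∧ b + a * b / e ≤ d := by
  classical
  have hc : (Nat.primesLE k).card = Nat.primeCounting k := by
    rw [Nat.primesLE_eq_filter_range, Nat.primeCounting, Nat.primeCounting',
      Nat.count_eq_card_filter_range]
  obtain ⟨P, hP, hPc⟩ := Finset.exists_subset_card_eq (show 2 * r ≤ (Nat.primesLE k).card by omega)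
  obtain ⟨Q, hQ, hQc⟩ := Finset.exists_subset_card_eq (show r ≤ P.card by omega)
  have hprime : ∀ p ∈ P, p.Prime := fun p hp => by
    have := hP hp
    rw [Nat.primesLE_eq_filter_range] at this
    exact (Finset.mem_filter.1 this).2
  have hle : ∀ p ∈ P, p ≤ k := fun p hp => by
    have := hP hp
    rw [Nat.primesLE_eq_filter_range] at this
    have := Finset.mem_range.1 (Finset.mem_filter.1 this).1
    omega
  have hprod : ∀ U ⊆ P, U.card = r → 1 ≤ ∏ p ∈ U, p ∧ ∏ p ∈ U, p ≤ k ^ r := by
    intro U hU hUc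
    constructor
    · exact Finset.prod_pos fun p hp => (hprime p (hU hp)).pos
    · rw [← hUc]
      exact Finset.prod_le_pow_card _ _ _ fun p hp => hle p (hU hp)
  have hcomp : ∀ U ⊆ P, U.card = r → (P \ U).card = r := by
    intro U hU hUc
    rw [Finset.card_sdiff_of_subset hU]
    omega
  have hmul : ∀ U ⊆ P, (∏ p ∈ U, p) * (∏ p ∈ P \ U, p) = ∏ p ∈ P, p := by
    intro U hU
    rw [mul_comm]
    exact Finset.prod_sdiff hU
  have q1 := hprod Q hQ hQc
  have q2 := hprod (P \ Q) Finset.sdiff_subset (hcomp Q hQ hQc)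
  refine ⟨∏ p ∈ Q, p, ∏ p ∈ P \ Q, p, q1.1, q2.1, by omega,
    (P.powersetCard r).image (fun U => ∏ p ∈ U, p), ?_, ?_⟩
  · rw [Finset.card_image_of_injOn, Finset.card_powersetCard, hPc]
    · rfl
    · intro U hU V hV h
      have hU := Finset.mem_powersetCard.1 (Finset.mem_coe.1 hU)
      have hV := Finset.mem_powersetCard.1 (Finset.mem_coe.1 hV)
      simp only at h
      have e1 := Nat.primeFactors_prod (fun p hp => hprime p (hU.1 hp))
      have e2 := Nat.primeFactors_prod (fun p hp => hprime p (hV.1 hp))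
      rw [← e1, ← e2, h]
  · intro e he
    obtain ⟨U, hU, rfl⟩ := Finset.mem_image.1 he
    have hU := Finset.mem_powersetCard.1 hU
    rw [hmul Q hQ]
    have u1 := hprod U hU.1 hU.2
    have u2 := hprod (P \ U) Finset.sdiff_subset (hcomp U hU.1 hU.2)
    refine ⟨?_, by omega, ?_⟩
    · exact ⟨_, (hmul U hU.1).symm⟩
    · have : (∏ p ∈ P, p) / (∏ p ∈ U, p) = ∏ p ∈ P \ U, p := by
        rw [← hmul U hU.1]
        exact Nat.mul_div_cancel_left _ u1.1
      rw [this]
      omega

end H34.WSG
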