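import Mathlib

namespace H34.WSG

open Finset Real

/-- number of divisors in terms of a splitting of the primes at `K`. -/
lemma log_tau_le (n K : ℕ) (hn : n ≠ 0) (hK : 2 ≤ K) :
    Real.log (n.divisors.card : ℝ) ≤
      K * Real.log ((Nat.log 2 n : ℝ) + 1) + Real.log 2 * (Real.log n / Real.log K) := by
  classical
  set L : ℕ := Nat.log 2 n with hL
  have hK1 : (1 : ℝ) < K := by exact_mod_cast (by omega : 1 < K)
  have hlogK : 0 < Real.log K := Real.log_pos hK1
  set S := n.primeFactors.filter (fun p => p ≤ K) with hS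
  set R := n.primeFactors.filter (fun p => ¬ p ≤ K) with hR
  have hcard : n.divisors.card =
      (∏ p ∈ S, (n.factorization p + 1)) * ∏ p ∈ R, (n.factorization p + 1) := by
    rw [Nat.card_divisors hn, hS, hR, Finset.prod_filter_mul_prod_filter_not]
  have hS1 : ∏ p ∈ S, (n.factorization p + 1) ≤ (L + 1) ^ K := by
    calc ∏ p ∈ S, (n.factorization p + 1) ≤ ∏ _p ∈ S, (L + 1) := by
          apply Finset.prod_le_prod' 
          intro p hp
          have hpp : p.Prime := Nat.prime_of_mem_primeFactors (Finset.mem_filter.1 hp).1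
          have h1 : p ^ n.factorization p ≤ n := Nat.ordProj_le p hn
          have h2 : 2 ^ n.factorization p ≤ n :=
            (Nat.pow_le_pow_left hpp.two_le _).trans h1
          have h3 : n.factorization p ≤ L := by
            rw [hL]
            exact Nat.le_log_of_pow_le (by norm_num) h2
          omega
      _ = (L + 1) ^ S.card := by rw [Finset.prod_const]
      _ ≤ (L + 1) ^ K := by
          apply Nat.pow_le_pow_right (by omega)
          have : S ⊆ Finset.Icc 1 K := by
            intro p hp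
            have hpp : p.Prime := Nat.prime_of_mem_primeFactors (Finset.mem_filter.1 hp).1
            exact Finset.mem_Icc.2 ⟨hpp.one_le, (Finset.mem_filter.1 hp).2⟩
          calc S.card ≤ (Finset.Icc 1 K).card := Finset.card_le_card this
            _ = K := by simp
  have hR1 : ∏ p ∈ R, (n.factorization p + 1) ≤ 2 ^ (∑ p ∈ R, n.factorization p) := by
    rw [← Finset.prod_pow_eq_pow_sum]
    apply Finset.prod_le_prod'
    intro p _
    exact Nat.lt_two_pow_self
  have hR2 : K ^ (∑ p ∈ R, n.factorization p) ≤ n := by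
    rw [← Finset.prod_pow_eq_pow_sum]
    calc ∏ p ∈ R, K ^ n.factorization p ≤ ∏ p ∈ R, p ^ n.factorization p := by
          apply Finset.prod_le_prod'
          intro p hp
          have := (Finset.mem_filter.1 hp).2
          exact Nat.pow_le_pow_left (by omega) _
      _ ≤ ∏ p ∈ n.primeFactors, p ^ n.factorization p := by
          apply Finset.prod_le_prod_of_subset_of_one_le' (Finset.filter_subset _ _)
          intro p hp _
          exact Nat.one_le_pow _ _ (Nat.prime_of_mem_primeFactors hp).pos
      _ = n := Nat.prod_factorization_pow_eq_self hn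
  set e : ℕ := ∑ p ∈ R, n.factorization p with he
  have he1 : (e : ℝ) ≤ Real.log n / Real.log K := by
    rw [le_div_iff₀ hlogK, ← Real.log_pow]
    apply Real.log_le_log (by positivity)
    exact_mod_cast hR2
  have htau : (n.divisors.card : ℝ) ≤ ((L : ℝ) + 1) ^ K * 2 ^ e := by
    rw [hcard]
    exact_mod_cast Nat.mul_le_mul hS1 hR1
  have hpos : (0 : ℝ) < (n.divisors.card : ℝ) := by
    exact_mod_cast Finset.card_pos.2 ⟨1, Nat.one_mem_divisors.2 hn⟩
  calc Real.log (n.divisors.card : ℝ) ≤ Real.log (((L : ℝ) + 1) ^ K * 2 ^ e) :=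
        Real.log_le_log hpos htau
    _ = K * Real.log ((L : ℝ) + 1) + e * Real.log 2 := by
        rw [Real.log_mul (by positivity) (by positivity), Real.log_pow, Real.log_pow]
    _ ≤ _ := by
        have h2 : 0 ≤ Real.log 2 := Real.log_nonneg (by norm_num)
        nlinarith [mul_le_mul_of_nonneg_right he1 h2]

/-- uniform divisor bound. -/
lemma log_tau_le' : ∃ C : ℝ, 0 < C ∧ ∀ x : ℝ, 64 ≤ x → ∀ n : ℕ, n ≠ 0 → Real.log n ≤ x →
    Real.log (n.divisors.card : ℝ) ≤ C * (x / Real.log x) := by
  refine ⟨64, by norm_num, ?_⟩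
  intro x hx n hn hnx
  have hx0 : (0 : ℝ) < x := by linarith
  have hsx : (8 : ℝ) ≤ Real.sqrt x := by
    rw [show (8 : ℝ) = Real.sqrt 64 by
      rw [show (64 : ℝ) = 8 ^ 2 by norm_num, Real.sqrt_sq (by norm_num)]]
    exact Real.sqrt_le_sqrt hx
  set K : ℕ := ⌊Real.sqrt x⌋₊ with hK
  have hKle : (K : ℝ) ≤ Real.sqrt x := Nat.floor_le (Real.sqrt_nonneg x)
  have hKge : Real.sqrt x - 1 < K := Nat.sub_one_lt_floor _
  have hK2 : 2 ≤ K := by
    have : (1 : ℝ) < K := by linarith
    exact_mod_cast this
  have hlogx : 0 < Real.log x := Real.log_pos (by linarith)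
  have hssq : Real.sqrt x * Real.sqrt x = x := Real.mul_self_sqrt hx0.le
  -- lower bound for log K
  have hq : Real.sqrt (Real.sqrt x) ≤ K := by
    have h1 : Real.sqrt (Real.sqrt x) ≤ Real.sqrt x - 1 := by
      rw [Real.sqrt_le_left (by linarith)]
      nlinarith
    linarith
  have hlogK : Real.log x / 4 ≤ Real.log K := by
    have h1 : Real.log (Real.sqrt (Real.sqrt x)) = Real.log x / 4 := by
      rw [Real.log_sqrt (Real.sqrt_nonneg x), Real.log_sqrt hx0.le]; ring
    rw [← h1]
    exact Real.log_le_log (Real.sqrt_pos.2 (by linarith)) hq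
  have hmain := log_tau_le n K hn hK2
  -- first term
  have hlog2n : (Nat.log 2 n : ℝ) + 1 ≤ x ^ 2 := by
    have h1 : (Nat.log 2 n : ℝ) * Real.log 2 ≤ Real.log n := by
      rw [← Real.log_pow]
      apply Real.log_le_log (by positivity)
      exact_mod_cast Nat.pow_log_le_self 2 hn
    have h2 : (0.5 : ℝ) < Real.log 2 := by linarith [Real.log_two_gt_d9]
    have h3 : (0 : ℝ) ≤ (Nat.log 2 n : ℝ) := by positivity
    nlinarith
  have hl1 : Real.log ((Nat.log 2 n : ℝ) + 1) ≤ 2 * Real.log x := by
    have h1 := Real.log_le_log (by positivity) hlog2n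
    rwa [Real.log_pow, Nat.cast_ofNat] at h1
  have hquart : Real.log x ≤ 4 * Real.sqrt (Real.sqrt x) := by
    have h1 : Real.log (Real.sqrt (Real.sqrt x)) = Real.log x / 4 := by
      rw [Real.log_sqrt (Real.sqrt_nonneg x), Real.log_sqrt hx0.le]; ring
    have h2 : Real.log (Real.sqrt (Real.sqrt x)) ≤ Real.sqrt (Real.sqrt x) :=
      (Real.log_le_sub_one_of_pos (Real.sqrt_pos.2 (by linarith))).trans (by linarith)
    linarith
  have hlogsq : Real.log x * Real.log x ≤ 16 * Real.sqrt x := by
    have h3 : Real.sqrt (Real.sqrt x) * Real.sqrt (Real.sqrt x) = Real.sqrt x :=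
      Real.mul_self_sqrt (Real.sqrt_nonneg x)
    nlinarith
  have ht1 : (K : ℝ) * Real.log ((Nat.log 2 n : ℝ) + 1) ≤ 32 * (x / Real.log x) := by
    have h1 : (K : ℝ) * Real.log ((Nat.log 2 n : ℝ) + 1) ≤ Real.sqrt x * (2 * Real.log x) := by
      apply mul_le_mul hKle hl1
      · exact Real.log_nonneg (by linarith [(Nat.cast_nonneg (Nat.log 2 n) : (0 : ℝ) ≤ _)])
      · exact Real.sqrt_nonneg x
    refine h1.trans ?_
    rw [mul_div_assoc', le_div_iff₀ hlogx]
    have := mul_le_mul_of_nonneg_left hlogsq (Real.sqrt_nonneg x)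
    nlinarith
  have ht2 : Real.log 2 * (Real.log n / Real.log K) ≤ 4 * (x / Real.log x) := by
    have hKpos : 0 < Real.log K := by linarith [div_pos hlogx (by norm_num : (0 : ℝ) < 4)]
    have h1 : Real.log n / Real.log K ≤ x / (Real.log x / 4) := by
      have hn0 : 0 ≤ Real.log (n : ℝ) := Real.log_natCast_nonneg n
      apply div_le_div₀ hx0.le hnx (by positivity) hlogK
    have h2 : x / (Real.log x / 4) = 4 * (x / Real.log x) := by
      field_simp
    have h3 : Real.log 2 ≤ 1 := by linarith [Real.log_two_lt_d9]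
    have h4 : 0 ≤ Real.log 2 := Real.log_nonneg (by norm_num)
    have h5 : 0 ≤ 4 * (x / Real.log x) := by positivity
    have h6 : 0 ≤ Real.log n / Real.log K := div_nonneg (Real.log_natCast_nonneg n) hKpos.le
    calc Real.log 2 * (Real.log n / Real.log K) ≤ 1 * (Real.log n / Real.log K) :=
          mul_le_mul_of_nonneg_right h3 h6
      _ ≤ _ := by rw [one_mul, ← h2]; exact h1
  have h5 : 0 ≤ x / Real.log x := by positivity
  linarith

/-- a divisor-rich square: for `32 ^ k ≤ d` the primorial `m` of `k` satisfies `m ^ 2 + m ≤ d`. -/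
lemma tau_sq_primorial (k : ℕ) : 2 ^ (Nat.primeCounting k) ≤ (((primorial k) ^ 2).divisors).card := by
  classical
  have h0 : (primorial k) ^ 2 ≠ 0 := pow_ne_zero _ (primorial_ne_zero k)
  rw [Nat.card_divisors h0]
  have hpf : ((primorial k) ^ 2).primeFactors = Nat.primesLE k := by
    rw [Nat.primeFactors_pow _ (by norm_num), primeFactors_primorial]
  rw [hpf]
  have hc : (Nat.primesLE k).card = Nat.primeCounting k := by
    rw [Nat.primesLE_eq_filter_range, Nat.primeCounting, Nat.primeCounting', Nat.count_eq_card_filter_range]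
  rw [← hc, ← Finset.prod_const]
  apply Finset.prod_le_prod'
  intro p hp
  have hpd : p ∈ ((primorial k) ^ 2).primeFactors := by rw [hpf]; exact hp
  have : 0 < ((primorial k) ^ 2).factorization p :=
    Nat.Prime.factorization_pos_of_dvd (Nat.prime_of_mem_primeFactors hpd) h0
      (Nat.dvd_of_mem_primeFactors hpd)
  omega

end H34.WSG
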