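import Pool.Agent.H34.WSG.Geo

namespace H34.WSG

open Finset Pool.Agent.Lib.helper25.WangShi

/-- Singleton-type bound: a set of divisors of `n` such that any two have small
`gcd (u, u') * gcd (n/u, n/u')`. -/
theorem singleton_bound {n D : ℕ} (hn : 1 ≤ n) (hD : 2 ≤ D) (T : Finset ℕ)
    (hT : ∀ u ∈ T, u ∣ n)
    (hT2 : ∀ u ∈ T, ∀ u' ∈ T, u ≠ u' → Nat.gcd u u' * Nat.gcd (n / u) (n / u') < D) :
    ∃ m : ℕ, 1 ≤ m ∧ m ≤ D ∧ T.card ≤ 2 * m.divisors.card := by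
  classical
  by_cases hnD : n < D
  · refine ⟨n, hn, hnD.le, ?_⟩
    have : T ⊆ n.divisors := fun u hu => Nat.mem_divisors.2 ⟨hT u hu, by omega⟩
    have := Finset.card_le_card this
    omega
  push Not at hnD
  have hex : ∃ m, m ∣ n ∧ D ≤ m := ⟨n, dvd_rfl, hnD⟩
  obtain ⟨h1, h2⟩ := Nat.find_spec hex
  have hmin : ∀ m, m < Nat.find hex → ¬ (m ∣ n ∧ D ≤ m) := fun m hm => Nat.find_min hex hm
  set n1 := Nat.find hex with hn1
  obtain ⟨p, hp, hpd⟩ := Nat.exists_prime_and_dvd (show n1 ≠ 1 by omega)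
  obtain ⟨m, hm⟩ := hpd
  have hm0 : 1 ≤ m := by
    rcases Nat.eq_zero_or_pos m with h | h
    · rw [h] at hm; simp at hm; omega
    · exact h
  have hmn1 : m < n1 := by
    rw [hm]
    have := hp.two_le
    nlinarith
  have hmD : m < D := by
    by_contra hcon
    push Not at hcon
    exact hmin m hmn1 ⟨(Dvd.intro_left p hm.symm).trans h1, hcon⟩
  refine ⟨m, hm0, hmD.le, ?_⟩
  have hcard : T.card ≤ n1.divisors.card := by
    apply Finset.card_le_card_of_injOn (fun u => Nat.gcd u n1)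
    · intro u _
      simp only [Finset.mem_coe, Nat.mem_divisors]
      exact ⟨Nat.gcd_dvd_right _ _, by omega⟩
    · intro u hu u' hu' he
      by_contra hne
      have hu := Finset.mem_coe.1 hu
      have hu' := Finset.mem_coe.1 hu'
      simp only at he
      have h3 := hT2 u hu u' hu' hne
      set g := Nat.gcd u n1 with hg
      have hgpos : 0 < g := Nat.gcd_pos_of_pos_right _ (by omega)
      have key : ∀ w, w ∣ n → Nat.gcd w n1 = g → n1 / g ∣ n / w := by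
        intro w hw hwg
        obtain ⟨v, hv⟩ := hw
        have hwpos : 0 < w := by
          rcases Nat.eq_zero_or_pos w with h | h
          · rw [h] at hv; simp at hv; omega
          · exact h
        have hdv : n / w = v := by rw [hv]; exact Nat.mul_div_cancel_left v hwpos
        rw [hdv]
        have c1 : Nat.Coprime (w / g) (n1 / g) := by
          rw [← hwg]
          exact Nat.coprime_div_gcd_div_gcd (by rw [hwg]; exact hgpos)
        have hgw : g ∣ w := by rw [← hwg]; exact Nat.gcd_dvd_left _ _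
        have hgn1 : g ∣ n1 := Nat.gcd_dvd_right _ _
        have c2 : n1 / g ∣ (w / g) * v := by
          have : n1 ∣ w * v := by rw [← hv]; exact h1
          rw [← Nat.mul_dvd_mul_iff_left hgpos, Nat.mul_div_cancel' hgn1, ← mul_assoc,
            Nat.mul_div_cancel' hgw]
          exact this
        exact (Nat.Coprime.dvd_of_dvd_mul_left c1.symm c2)
      have k1 := key u (hT u hu) rfl
      have k2 := key u' (hT u' hu') he.symm
      have k3 : n1 / g ∣ Nat.gcd (n / u) (n / u') := Nat.dvd_gcd k1 k2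
      have k4 : g ∣ Nat.gcd u u' :=
        Nat.dvd_gcd (Nat.gcd_dvd_left _ _) (by rw [he]; exact Nat.gcd_dvd_left _ _)
      have k5 : n1 ∣ Nat.gcd u u' * Nat.gcd (n / u) (n / u') := by
        have := Nat.mul_dvd_mul k4 k3
        rwa [Nat.mul_div_cancel' (Nat.gcd_dvd_right u n1)] at this
      have k6 : 0 < Nat.gcd u u' * Nat.gcd (n / u) (n / u') := by
        have q1 : 0 < u := Nat.pos_of_dvd_of_pos (hT u hu) hn
        have q2 : 0 < n / u := Nat.div_pos (Nat.le_of_dvd hn (hT u hu)) q1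
        exact Nat.mul_pos (Nat.gcd_pos_of_pos_left _ q1) (Nat.gcd_pos_of_pos_left _ q2)
      have := Nat.le_of_dvd k6 k5
      omega
  have hsub : n1.divisors.card ≤ 2 * m.divisors.card := by
    rw [hm, Nat.divisors_mul]
    refine (Finset.card_mul_le).trans ?_
    rw [hp.divisors, Finset.card_pair hp.one_lt.ne]
  omega

theorem gcd_lt {q a i i' d : ℕ} (hcop : Nat.Coprime a q) (h : a < q * i) (h' : a < q * i')
    (hne : i ≠ i') (hi : 1 ≤ i) (hid : i ≤ d) (hi' : 1 ≤ i') (hid' : i' ≤ d) :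
    Nat.gcd (q * i - a) (q * i' - a) < d := by
  wlog hlt : i < i' generalizing i i'
  · rw [Nat.gcd_comm]
    exact this h' h (Ne.symm hne) hi' hid' hi hid (by omega)
  set g := Nat.gcd (q * i - a) (q * i' - a) with hg
  have g1 : g ∣ q * i - a := Nat.gcd_dvd_left _ _
  have g2 : g ∣ q * i' - a := Nat.gcd_dvd_right _ _
  have hc : Nat.Coprime g q := by
    apply Nat.Coprime.symm
    rw [Nat.coprime_iff_gcd_eq_one]
    have e1 : Nat.gcd q g ∣ q := Nat.gcd_dvd_left _ _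
    have e2 : Nat.gcd q g ∣ q * i - a := (Nat.gcd_dvd_right _ _).trans g1
    have e3 : Nat.gcd q g ∣ q * i := Dvd.dvd.mul_right e1 i
    have e4 : Nat.gcd q g ∣ a := by
      have := Nat.dvd_sub e3 e2
      rwa [Nat.sub_sub_self h.le] at this
    have e5 : Nat.gcd q g ∣ Nat.gcd a q := Nat.dvd_gcd e4 e1
    rw [hcop] at e5
    exact Nat.dvd_one.1 e5
  have g3 : g ∣ q * (i' - i) := by
    have := Nat.dvd_sub g2 g1
    have e : q * i' - a - (q * i - a) = q * (i' - i) := by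
      rw [Nat.mul_sub]; omega
    rwa [e] at this
  have g4 : g ∣ i' - i := Nat.Coprime.dvd_of_dvd_mul_left hc g3
  have g5 := Nat.le_of_dvd (by omega) g4
  omega

/-- the lattice points on the hyperbola: at most twice the number of divisors of some
`m ≤ d ^ 2`. -/
theorem N_card_le2 {d : ℕ} (hd : 2 ≤ d) {b c : ℝ} (hb : 0 < b) (hc : 0 < c) :
    ∃ m : ℕ, 1 ≤ m ∧ m ≤ d ^ 2 ∧ (N d b c).card ≤ 2 * m.divisors.card := by
  classical
  by_cases h1 : (N d b c).card ≤ 1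
  · refine ⟨1, le_rfl, Nat.one_le_pow _ _ (by omega), ?_⟩
    simp only [Nat.divisors_one, Finset.card_singleton]
    omega
  push Not at h1
  obtain ⟨q0, hq0, r0, hr0, hne⟩ := Finset.one_lt_card.1 h1
  obtain ⟨q, hq, r, hr, hlt1, hlt2⟩ : ∃ q ∈ N d b c, ∃ r ∈ N d b c, q.1 < r.1 ∧ r.2 < q.2 := by
    rcases N_tri hb hc hq0 hr0 with t | t | t
    · exact absurd t hne
    · exact ⟨q0, hq0, r0, hr0, t.1, t.2⟩
    · exact ⟨r0, hr0, q0, hq0, t.1, t.2⟩
  obtain ⟨⟨a1, a1'⟩, ⟨a2, a2'⟩, a3⟩ := mem_N.1 hq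
  obtain ⟨⟨b1, b1'⟩, ⟨b2, b2'⟩, b3⟩ := mem_N.1 hr
  obtain ⟨i, j⟩ := q
  obtain ⟨i', j'⟩ := r
  dsimp only at *
  obtain ⟨u, rfl⟩ : ∃ u, i' = i + u := ⟨i' - i, by omega⟩
  obtain ⟨v, rfl⟩ : ∃ v, j = j' + v := ⟨j - j', by omega⟩
  have hu : 1 ≤ u := by omega
  have hv : 1 ≤ v := by omega
  set Z : ℕ := i * v + j' * u + u * v with hZ
  set X : ℕ := i * (i + u) * v with hX
  set Y : ℕ := (j' + v) * j' * u with hY
  have hZ1 : 1 ≤ Z := by
    have : 1 ≤ u * v := Nat.mul_pos hu hv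
    omega
  have hX1 : 1 ≤ X := Nat.mul_pos (Nat.mul_pos a1 (by omega)) hv
  have hY1 : 1 ≤ Y := Nat.mul_pos (Nat.mul_pos (by omega) b2) hu
  push_cast at a3 b3
  have eX : b * Z = X := by
    rw [hZ, hX]; push_cast
    linear_combination ((i : ℝ) + u) * a3 - (i : ℝ) * b3
  have eY : c * Z = Y := by
    rw [hZ, hY]; push_cast
    linear_combination ((j' : ℝ) + v) * b3 - (j' : ℝ) * a3
  -- reduced fractions
  obtain ⟨X1, Z1, hX1p, hZ1p, hcop1, e1⟩ : ∃ X1 Z1 : ℕ, 1 ≤ X1 ∧ 1 ≤ Z1 ∧ Nat.Coprime X1 Z1 ∧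
      b * Z1 = X1 := by
    have hg : 0 < Nat.gcd X Z := Nat.gcd_pos_of_pos_left _ hX1
    refine ⟨X / Nat.gcd X Z, Z / Nat.gcd X Z,
      Nat.div_pos (Nat.le_of_dvd hX1 (Nat.gcd_dvd_left _ _)) hg,
      Nat.div_pos (Nat.le_of_dvd hZ1 (Nat.gcd_dvd_right _ _)) hg,
      Nat.coprime_div_gcd_div_gcd hg, ?_⟩
    rw [Nat.cast_div (Nat.gcd_dvd_left _ _) (by exact_mod_cast hg.ne'),
      Nat.cast_div (Nat.gcd_dvd_right _ _) (by exact_mod_cast hg.ne'), ← eX]
    ring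
  obtain ⟨Y2, Z2, hY2p, hZ2p, hcop2, e2⟩ : ∃ X1 Z1 : ℕ, 1 ≤ X1 ∧ 1 ≤ Z1 ∧ Nat.Coprime X1 Z1 ∧
      c * Z1 = X1 := by
    have hg : 0 < Nat.gcd Y Z := Nat.gcd_pos_of_pos_left _ hY1
    refine ⟨Y / Nat.gcd Y Z, Z / Nat.gcd Y Z,
      Nat.div_pos (Nat.le_of_dvd hY1 (Nat.gcd_dvd_left _ _)) hg,
      Nat.div_pos (Nat.le_of_dvd hZ1 (Nat.gcd_dvd_right _ _)) hg,
      Nat.coprime_div_gcd_div_gcd hg, ?_⟩
    rw [Nat.cast_div (Nat.gcd_dvd_left _ _) (by exact_mod_cast hg.ne'),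
      Nat.cast_div (Nat.gcd_dvd_right _ _) (by exact_mod_cast hg.ne'), ← eY]
    ring
  have hZ1R : (0 : ℝ) < Z1 := by exact_mod_cast hZ1p
  have hZ2R : (0 : ℝ) < Z2 := by exact_mod_cast hZ2p
  have key : ∀ w ∈ N d b c, X1 < Z1 * w.1 ∧ Y2 < Z2 * w.2 ∧
      (Z1 * w.1 - X1) * (Z2 * w.2 - Y2) = X1 * Y2 := by
    intro w hw
    obtain ⟨⟨c1, c1'⟩, ⟨c2, c2'⟩, c3⟩ := mem_N.1 hw
    have p1 : (0 : ℝ) < w.1 := by exact_mod_cast c1
    have p2 : (0 : ℝ) < w.2 := by exact_mod_cast c2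
    obtain ⟨g1, g2⟩ := gt_of hb hc p1 p2 c3
    have l1 : X1 < Z1 * w.1 := by
      have : (X1 : ℝ) < Z1 * w.1 := by rw [← e1]; nlinarith
      exact_mod_cast this
    have l2 : Y2 < Z2 * w.2 := by
      have : (Y2 : ℝ) < Z2 * w.2 := by rw [← e2]; nlinarith
      exact_mod_cast this
    refine ⟨l1, l2, ?_⟩
    have : (((Z1 * w.1 - X1 : ℕ) : ℝ)) * ((Z2 * w.2 - Y2 : ℕ) : ℝ) = X1 * Y2 := by
      rw [Nat.cast_sub l1.le, Nat.cast_sub l2.le]
      push_cast
      rw [← e1, ← e2]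
      linear_combination -((Z1 : ℝ) * Z2) * c3
    exact_mod_cast this
  set T : Finset ℕ := (N d b c).image (fun w : ℕ × ℕ => Z1 * w.1 - X1) with hT
  have hinj : Set.InjOn (fun w : ℕ × ℕ => Z1 * w.1 - X1) (N d b c : Set (ℕ × ℕ)) := by
    intro w hw w' hw' e
    have hw := Finset.mem_coe.1 hw
    have hw' := Finset.mem_coe.1 hw'
    have k1 := (key w hw).1
    have k2 := (key w' hw').1
    simp only at e
    have e1 : Z1 * w.1 = Z1 * w'.1 := by omega
    have e2 : w.1 = w'.1 := Nat.eq_of_mul_eq_mul_left (by omega) e1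
    rcases N_tri hb hc hw hw' with t | t | t
    · exact t
    · omega
    · omega
  have hcardT : T.card = (N d b c).card := Finset.card_image_of_injOn hinj
  rw [← hcardT]
  apply singleton_bound (n := X1 * Y2) (Nat.mul_pos hX1p hY2p) (by nlinarith) T
  · intro w hw
    obtain ⟨z, hz, rfl⟩ := Finset.mem_image.1 hw
    exact ⟨_, (key z hz).2.2.symm⟩
  · intro w hw w' hw' hne
    obtain ⟨z, hz, rfl⟩ := Finset.mem_image.1 hw
    obtain ⟨z', hz', rfl⟩ := Finset.mem_image.1 hw'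
    obtain ⟨k1, k2, k3⟩ := key z hz
    obtain ⟨k1', k2', k3'⟩ := key z' hz'
    have hzz : z ≠ z' := fun h => hne (by rw [h])
    obtain ⟨⟨c1, c1'⟩, ⟨c2, c2'⟩, _⟩ := mem_N.1 hz
    obtain ⟨⟨b1, b1'⟩, ⟨b2, b2'⟩, _⟩ := mem_N.1 hz'
    have hne12 : z.1 ≠ z'.1 ∧ z.2 ≠ z'.2 := by
      rcases N_tri hb hc hz hz' with t | t | t
      · exact absurd t hzz
      · exact ⟨by omega, by omega⟩
      · exact ⟨by omega, by omega⟩
    have d1 : X1 * Y2 / (Z1 * z.1 - X1) = Z2 * z.2 - Y2 := by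
      rw [← k3]; exact Nat.mul_div_cancel_left _ (by omega)
    have d2 : X1 * Y2 / (Z1 * z'.1 - X1) = Z2 * z'.2 - Y2 := by
      rw [← k3']; exact Nat.mul_div_cancel_left _ (by omega)
    rw [d1, d2]
    have t1 := gcd_lt hcop1 k1 k1' hne12.1 c1 c1' b1 b1'
    have t2 := gcd_lt hcop2 k2 k2' hne12.2 c2 c2' b2 b2'
    calc _ < d * d := Nat.mul_lt_mul'' t1 t2
      _ = d ^ 2 := by ring

end H34.WSG
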