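import Pool.Agent.H34.WSG.NT

namespace H34.WSG

open Finset Real Filter Asymptotics

/-- sharp (Wigert) divisor bound, uniform form. -/
lemma wigert {ε : ℝ} (hε : 0 < ε) : ∃ X0 : ℝ, ∀ x : ℝ, X0 ≤ x → ∀ n : ℕ, n ≠ 0 →
    Real.log n ≤ x →
    Real.log (n.divisors.card : ℝ) ≤ (Real.log 2 + ε) * (x / Real.log x) := by
  obtain ⟨δ, hδ0, hδ1, hδ2⟩ : ∃ δ : ℝ, 0 < δ ∧ δ ≤ 1 / 4 ∧ 8 * δ ≤ ε :=
    ⟨min (1 / 4) (ε / 8), by positivity, min_le_left _ _, by
      have := min_le_right (1 / 4 : ℝ) (ε / 8); linarith⟩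
  -- (1) log x ^ 2 = o (x ^ δ)
  have h1 : ∀ᶠ x : ℝ in atTop, Real.log x ^ (2 : ℝ) ≤ (ε / 4) * x ^ δ := by
    have := (isLittleO_log_rpow_rpow_atTop (2 : ℝ) hδ0).bound (show (0 : ℝ) < ε / 4 by positivity)
    filter_upwards [this, eventually_ge_atTop (1 : ℝ)] with x hx hx1
    have a1 : 0 ≤ Real.log x := Real.log_nonneg hx1
    rwa [Real.norm_of_nonneg (Real.rpow_nonneg a1 _),
      Real.norm_of_nonneg (Real.rpow_nonneg (by linarith) _)] at hx
  -- (2) x ^ (1 - δ) - 1 ≥ x ^ (1 - 2 δ)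
  have h2 : ∀ᶠ x : ℝ in atTop, x ^ (1 - 2 * δ) ≤ x ^ (1 - δ) - 1 := by
    have t : Tendsto (fun x : ℝ => x ^ δ) atTop atTop := tendsto_rpow_atTop hδ0
    filter_upwards [t.eventually_ge_atTop 2, eventually_ge_atTop (1 : ℝ)] with x hx hx1
    have a1 : x ^ (1 - δ) = x ^ (1 - 2 * δ) * x ^ δ := by
      rw [← Real.rpow_add (by linarith)]; congr 1; ring
    have a2 : 1 ≤ x ^ (1 - 2 * δ) := Real.one_le_rpow hx1 (by linarith)
    rw [a1]
    nlinarith
  obtain ⟨X1, hX1⟩ := Filter.eventually_atTop.1 (h1.and h2)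
  refine ⟨max X1 16, ?_⟩
  intro x hx n hn hnx
  have hxX : X1 ≤ x := (le_max_left _ _).trans hx
  have hx16 : (16 : ℝ) ≤ x := (le_max_right _ _).trans hx
  obtain ⟨b1, b2⟩ := hX1 x hxX
  have hx0 : (0 : ℝ) < x := by linarith
  have hlogx : 0 < Real.log x := Real.log_pos (by linarith)
  set K : ℕ := ⌊x ^ (1 - δ)⌋₊ with hK
  have hKle : (K : ℝ) ≤ x ^ (1 - δ) := Nat.floor_le (Real.rpow_nonneg hx0.le _)
  have hKge : x ^ (1 - 2 * δ) ≤ K := by
    have := Nat.sub_one_lt_floor (x ^ (1 - δ))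
    linarith
  have hsq : (4 : ℝ) ≤ x ^ (1 - 2 * δ) := by
    calc (4 : ℝ) = (16 : ℝ) ^ ((1 : ℝ) / 2) := by
          rw [show (16 : ℝ) = 4 ^ (2 : ℝ) by norm_num, ← Real.rpow_mul (by norm_num)]; norm_num
      _ ≤ x ^ ((1 : ℝ) / 2) := Real.rpow_le_rpow (by norm_num) hx16 (by norm_num)
      _ ≤ x ^ (1 - 2 * δ) := Real.rpow_le_rpow_of_exponent_le (by linarith) (by linarith)
  have hK2 : 2 ≤ K := by
    have : (2 : ℝ) ≤ K := by linarith
    exact_mod_cast this
  have hlogK : (1 - 2 * δ) * Real.log x ≤ Real.log K := by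
    rw [← Real.log_rpow hx0]
    exact Real.log_le_log (by positivity) hKge
  have hlogK0 : 0 < (1 - 2 * δ) * Real.log x := by
    apply mul_pos (by linarith) hlogx
  have hmain := log_tau_le n K hn hK2
  have hl2 : (0.5 : ℝ) < Real.log 2 := by linarith [Real.log_two_gt_d9]
  have hl2' : Real.log 2 < 0.7 := by linarith [Real.log_two_lt_d9]
  have hlog2n : (Nat.log 2 n : ℝ) + 1 ≤ x ^ 2 := by
    have g1 : (Nat.log 2 n : ℝ) * Real.log 2 ≤ Real.log n := by
      rw [← Real.log_pow]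
      apply Real.log_le_log (by positivity)
      exact_mod_cast Nat.pow_log_le_self 2 hn
    have g3 : (0 : ℝ) ≤ (Nat.log 2 n : ℝ) := by positivity
    nlinarith
  have hl1 : Real.log ((Nat.log 2 n : ℝ) + 1) ≤ 2 * Real.log x := by
    have g1 := Real.log_le_log (by positivity) hlog2n
    rwa [Real.log_pow, Nat.cast_ofNat] at g1
  have hpd : x ^ (1 - δ) * x ^ δ = x := by
    rw [← Real.rpow_add hx0]; simp
  have hp0 : 0 ≤ x ^ (1 - δ) := Real.rpow_nonneg hx0.le _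
  have ht1 : (K : ℝ) * Real.log ((Nat.log 2 n : ℝ) + 1) ≤ (ε / 2) * (x / Real.log x) := by
    have g1 : (K : ℝ) * Real.log ((Nat.log 2 n : ℝ) + 1) ≤ x ^ (1 - δ) * (2 * Real.log x) := by
      apply mul_le_mul hKle hl1
      · exact Real.log_nonneg (by linarith [(Nat.cast_nonneg (Nat.log 2 n) : (0 : ℝ) ≤ _)])
      · exact hp0
    refine g1.trans ?_
    rw [mul_div_assoc', le_div_iff₀ hlogx]
    have g2 : Real.log x ^ (2 : ℝ) = Real.log x * Real.log x := by
      rw [Real.rpow_two]; ring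
    rw [g2] at b1
    calc x ^ (1 - δ) * (2 * Real.log x) * Real.log x
        = 2 * (x ^ (1 - δ) * (Real.log x * Real.log x)) := by ring
      _ ≤ 2 * (x ^ (1 - δ) * (ε / 4 * x ^ δ)) := by
          have := mul_le_mul_of_nonneg_left b1 hp0
          linarith
      _ = (ε / 2) * (x ^ (1 - δ) * x ^ δ) := by ring
      _ = _ := by rw [hpd]
  have ht2 : Real.log 2 * (Real.log n / Real.log K) ≤ (Real.log 2 + ε / 2) * (x / Real.log x) := by
    have hn0 : 0 ≤ Real.log (n : ℝ) := Real.log_natCast_nonneg n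
    have g1 : Real.log n / Real.log K ≤ x / ((1 - 2 * δ) * Real.log x) :=
      div_le_div₀ hx0.le hnx hlogK0 hlogK
    have g2 : x / ((1 - 2 * δ) * Real.log x) = (1 / (1 - 2 * δ)) * (x / Real.log x) := by
      have : (1 - 2 * δ) ≠ 0 := by linarith
      field_simp
    have g3 : Real.log 2 * (1 / (1 - 2 * δ)) ≤ Real.log 2 + ε / 2 := by
      rw [mul_one_div, div_le_iff₀ (by linarith)]
      nlinarith
    have g4 : 0 ≤ x / Real.log x := by positivity
    calc Real.log 2 * (Real.log n / Real.log K)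
        ≤ Real.log 2 * ((1 / (1 - 2 * δ)) * (x / Real.log x)) := by
          rw [← g2]; exact mul_le_mul_of_nonneg_left g1 (by linarith)
      _ = (Real.log 2 * (1 / (1 - 2 * δ))) * (x / Real.log x) := by ring
      _ ≤ _ := mul_le_mul_of_nonneg_right g3 g4
  calc Real.log (n.divisors.card : ℝ) ≤ _ := hmain
    _ ≤ (ε / 2) * (x / Real.log x) + (Real.log 2 + ε / 2) * (x / Real.log x) := add_le_add ht1 ht2
    _ = _ := by ring

end H34.WSG
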